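import Mathlib

set_option autoImplicit false

namespace Pool.Agent.Results.MP_6d6828_an.Counterexample

open Finset

structure Inst where
  n : ℕ
  h : ℝ
  A : ℝ
  J : ℝ
  ρ : ℝ
  wmax : ℕ → ℝ
  hn : 3 ≤ n
  hh : 0 < h
  hA : 0 < A
  hJ : 0 < J
  hρ : 0 < ρ
  hw : ∀ i, 2 ≤ i → i ≤ n - 1 → 0 < wmax i

noncomputable def Inst.D (I : Inst) (w : ℕ → ℝ) (i : ℕ) : ℝ :=
  (w (i - 1) - (2 + I.ρ) * w i + w (i + 1)) / (I.h * I.J)

def Inst.C (I : Inst) (w : ℕ → ℝ) : Prop :=
  w 1 = 0 ∧ w I.n = 0 ∧ (∀ i, 2 ≤ i → i ≤ I.n - 1 → 0 ≤ w i ∧ w i ≤ I.wmax i) ∧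
    ∀ i, 1 ≤ i → i ≤ I.n - 1 → |w (i + 1) - w i| ≤ I.h * I.A

def Inst.FeasR (I : Inst) (w t : ℕ → ℝ) : Prop :=
  I.C w ∧ ∀ i, 2 ≤ i → i ≤ I.n - 1 → 0 < w i ∧ I.h / √(w i) ≤ t i ∧ |I.D w i| ≤ t i

def Inst.MinR (I : Inst) (w t : ℕ → ℝ) : Prop :=
  I.FeasR w t ∧ ∀ w' t', I.FeasR w' t' →
    ∑ i ∈ Icc 2 (I.n - 1), t i ≤ ∑ i ∈ Icc 2 (I.n - 1), t' i

noncomputable def W (i : ℕ) : ℝ :=
  if i ≤ 12 then 2 * i - 2 else if i ≤ 14 then 23 else if i ≤ 25 then 52 - 2 * i
  else if i ≤ 35 then 2 * i - 48 else if i ≤ 37 then 23 else 98 - 2 * i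

lemma W_pos (i : ℕ) (h1 : 2 ≤ i) (h2 : i ≤ 48) : 0 < W i := by
  interval_cases i <;> norm_num [W]

noncomputable def I0 : Inst where
  n := 49
  h := 1
  A := 2
  J := 28 / 5
  ρ := 1 / 1000
  wmax := W
  hn := by norm_num
  hh := by norm_num
  hA := by norm_num
  hJ := by norm_num
  hρ := by norm_num
  hw := W_pos

noncomputable def T (i : ℕ) : ℝ := if i = 25 then I0.D W 25 else 1 / √(W i)

lemma tangent (w V r : ℝ) (hw : 0 < w) (hV : w ≤ V) (hr : 0 < r) (h : V ≤ r ^ 2) :
    1 / √V + (V - w) / (2 * V * r) ≤ 1 / √w := by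
  have hV0 : 0 < V := hw.trans_le hV
  have h1 : √V ≤ r := Real.sqrt_le_iff.mpr ⟨hr.le, h⟩
  have h2 : √w ≤ √V := Real.sqrt_le_sqrt hV
  have h3 : 0 < √w := Real.sqrt_pos.mpr hw
  have h4 := Real.sq_sqrt hw.le
  have h5 := Real.sq_sqrt hV0.le
  set a := √w
  set b := √V
  have hb : 0 < b := h3.trans_le h2
  have h6 : (V - w) / (2 * V * r) ≤ (V - w) / (2 * V * b) :=
    div_le_div_of_nonneg_left (by linarith) (by positivity) (by gcongr)
  refine le_trans (add_le_add_right h6 _) ?_
  rw [← h4, ← h5, div_add_div _ _ hb.ne' (by positivity), div_le_div_iff₀ (by positivity) h3]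
  have : 0 ≤ b * ((b - a) ^ 2 * (2 * b + a)) := by positivity
  nlinarith

lemma jerk (i : ℕ) (h1 : 2 ≤ i) (h2 : i ≤ 48) (h3 : i ≠ 25) : |I0.D W i| ≤ 1 / √(W i) := by
  have h4 : I0.D W i ^ 2 * W i ≤ 1 := by
    interval_cases i <;> first | exact absurd rfl h3 | norm_num [Inst.D, I0, W]
  have h5 := W_pos i h1 h2
  rw [le_div_iff₀ (Real.sqrt_pos.mpr h5), ← Real.sqrt_sq_eq_abs, ← Real.sqrt_mul (sq_nonneg _)]
  exact Real.sqrt_le_iff.mpr ⟨by norm_num, by simpa using h4⟩

lemma viol : 1 / √(W 25) < I0.D W 25 := by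
  have h1 : W 25 = 2 := by norm_num [W]
  have h2 : I0.D W 25 = 1999 / 2800 := by norm_num [Inst.D, I0, W]
  have h3 : (141 / 100 : ℝ) < √2 := Real.lt_sqrt_of_sq_lt (by norm_num)
  rw [h1, h2, div_lt_iff₀ (by positivity)]
  linarith

theorem result : ∃ (I : Inst) (w t : ℕ → ℝ), I.MinR w t ∧
    ∃ i, 2 ≤ i ∧ i ≤ I.n - 1 ∧ 0 < w i ∧ I.h / √(w i) < I.D w i := by
  refine ⟨I0, W, T, ⟨⟨⟨by norm_num [W], by norm_num [W, I0], fun i h1 h2 => ⟨(W_pos i h1 h2).le, le_rfl⟩,
    fun i h1 h2 => ?_⟩, fun i h1 h2 => ⟨W_pos i h1 h2, ?_⟩⟩, ?_⟩, 25, by norm_num, by norm_num [I0],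
    W_pos 25 (by norm_num) (by norm_num), viol⟩
  · have h3 : i ≤ 48 := h2
    show |W (i + 1) - W i| ≤ 1 * 2
    interval_cases i <;> norm_num [W, abs_le]
  · show 1 / √(W i) ≤ T i ∧ _
    unfold T
    split_ifs with h3
    · subst h3
      exact ⟨viol.le, (abs_of_pos (lt_of_le_of_lt (by positivity) viol)).le⟩
    · exact ⟨le_rfl, jerk i h1 h2 h3⟩
  · rintro w t ⟨hC, hR⟩
    have key : ∀ i, 2 ≤ i → i ≤ 48 → i ≠ 25 → ∀ r : ℝ, 0 < r → W i ≤ r ^ 2 →
        T i + (W i - w i) / (2 * W i * r) ≤ t i := by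
      intro i h1 h2 h3 r hr h4
      have h5 := hR i h1 h2
      rw [T, if_neg h3]
      exact (tangent _ _ r h5.1 (hC.2.2.1 i h1 h2).2 hr h4).trans h5.2.1
    have key0 : ∀ i, 2 ≤ i → i ≤ 48 → i ≠ 25 → T i ≤ t i := by
      intro i h1 h2 h3
      have h5 := hR i h1 h2
      rw [T, if_neg h3]
      refine le_trans ?_ h5.2.1
      exact one_div_le_one_div_of_le (Real.sqrt_pos.mpr h5.1)
        (Real.sqrt_le_sqrt (hC.2.2.1 i h1 h2).2)
    have a25 : (w 24 - (2 + 1 / 1000) * w 25 + w 26) / (1 * (28 / 5)) ≤ t 25 :=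
      (le_abs_self _).trans (hR 25 (by norm_num) (by norm_num [I0])).2.2
    have c25 : T 25 = 1999 / 2800 := by norm_num [T, Inst.D, I0, W]
    have d24 : w 24 ≤ W 24 := (hC.2.2.1 24 (by norm_num) (by norm_num [I0])).2
    have d25 : w 25 ≤ W 25 := (hC.2.2.1 25 (by norm_num) (by norm_num [I0])).2
    have d26 : w 26 ≤ W 26 := (hC.2.2.1 26 (by norm_num) (by norm_num [I0])).2
    norm_num [W] at d24 d25 d26
    have a2 := key0 2 (by norm_num) (by norm_num) (by norm_num)
    have a3 := key0 3 (by norm_num) (by norm_num) (by norm_num)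
    have a4 := key0 4 (by norm_num) (by norm_num) (by norm_num)
    have a5 := key0 5 (by norm_num) (by norm_num) (by norm_num)
    have a6 := key0 6 (by norm_num) (by norm_num) (by norm_num)
    have a7 := key0 7 (by norm_num) (by norm_num) (by norm_num)
    have a8 := key0 8 (by norm_num) (by norm_num) (by norm_num)
    have a9 := key0 9 (by norm_num) (by norm_num) (by norm_num)
    have a10 := key0 10 (by norm_num) (by norm_num) (by norm_num)
    have a11 := key0 11 (by norm_num) (by norm_num) (by norm_num)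
    have a12 := key0 12 (by norm_num) (by norm_num) (by norm_num)
    have a13 := key0 13 (by norm_num) (by norm_num) (by norm_num)
    have a14 := key0 14 (by norm_num) (by norm_num) (by norm_num)
    have a15 := key 15 (by norm_num) (by norm_num) (by norm_num) (47 / 10) (by norm_num) (by norm_num [W])
    rw [show W 15 = 22 by norm_num [W]] at a15
    have a16 := key 16 (by norm_num) (by norm_num) (by norm_num) (112 / 25) (by norm_num) (by norm_num [W])
    rw [show W 16 = 20 by norm_num [W]] at a16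
    have a17 := key 17 (by norm_num) (by norm_num) (by norm_num) (17 / 4) (by norm_num) (by norm_num [W])
    rw [show W 17 = 18 by norm_num [W]] at a17
    have a18 := key 18 (by norm_num) (by norm_num) (by norm_num) (4 / 1) (by norm_num) (by norm_num [W])
    rw [show W 18 = 16 by norm_num [W]] at a18
    have a19 := key 19 (by norm_num) (by norm_num) (by norm_num) (15 / 4) (by norm_num) (by norm_num [W])
    rw [show W 19 = 14 by norm_num [W]] at a19
    have a20 := key 20 (by norm_num) (by norm_num) (by norm_num) (347 / 100) (by norm_num) (by norm_num [W])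
    rw [show W 20 = 12 by norm_num [W]] at a20
    have a21 := key 21 (by norm_num) (by norm_num) (by norm_num) (317 / 100) (by norm_num) (by norm_num [W])
    rw [show W 21 = 10 by norm_num [W]] at a21
    have a22 := key 22 (by norm_num) (by norm_num) (by norm_num) (283 / 100) (by norm_num) (by norm_num [W])
    rw [show W 22 = 8 by norm_num [W]] at a22
    have a23 := key 23 (by norm_num) (by norm_num) (by norm_num) (49 / 20) (by norm_num) (by norm_num [W])
    rw [show W 23 = 6 by norm_num [W]] at a23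
    have a24 := key 24 (by norm_num) (by norm_num) (by norm_num) (2 / 1) (by norm_num) (by norm_num [W])
    rw [show W 24 = 4 by norm_num [W]] at a24
    have a26 := key 26 (by norm_num) (by norm_num) (by norm_num) (2 / 1) (by norm_num) (by norm_num [W])
    rw [show W 26 = 4 by norm_num [W]] at a26
    have a27 := key 27 (by norm_num) (by norm_num) (by norm_num) (49 / 20) (by norm_num) (by norm_num [W])
    rw [show W 27 = 6 by norm_num [W]] at a27
    have a28 := key 28 (by norm_num) (by norm_num) (by norm_num) (283 / 100) (by norm_num) (by norm_num [W])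
    rw [show W 28 = 8 by norm_num [W]] at a28
    have a29 := key 29 (by norm_num) (by norm_num) (by norm_num) (317 / 100) (by norm_num) (by norm_num [W])
    rw [show W 29 = 10 by norm_num [W]] at a29
    have a30 := key 30 (by norm_num) (by norm_num) (by norm_num) (347 / 100) (by norm_num) (by norm_num [W])
    rw [show W 30 = 12 by norm_num [W]] at a30
    have a31 := key 31 (by norm_num) (by norm_num) (by norm_num) (15 / 4) (by norm_num) (by norm_num [W])
    rw [show W 31 = 14 by norm_num [W]] at a31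
    have a32 := key 32 (by norm_num) (by norm_num) (by norm_num) (4 / 1) (by norm_num) (by norm_num [W])
    rw [show W 32 = 16 by norm_num [W]] at a32
    have a33 := key 33 (by norm_num) (by norm_num) (by norm_num) (17 / 4) (by norm_num) (by norm_num [W])
    rw [show W 33 = 18 by norm_num [W]] at a33
    have a34 := key 34 (by norm_num) (by norm_num) (by norm_num) (112 / 25) (by norm_num) (by norm_num [W])
    rw [show W 34 = 20 by norm_num [W]] at a34
    have a35 := key 35 (by norm_num) (by norm_num) (by norm_num) (47 / 10) (by norm_num) (by norm_num [W])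
    rw [show W 35 = 22 by norm_num [W]] at a35
    have a36 := key0 36 (by norm_num) (by norm_num) (by norm_num)
    have a37 := key0 37 (by norm_num) (by norm_num) (by norm_num)
    have a38 := key0 38 (by norm_num) (by norm_num) (by norm_num)
    have a39 := key0 39 (by norm_num) (by norm_num) (by norm_num)
    have a40 := key0 40 (by norm_num) (by norm_num) (by norm_num)
    have a41 := key0 41 (by norm_num) (by norm_num) (by norm_num)
    have a42 := key0 42 (by norm_num) (by norm_num) (by norm_num)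
    have a43 := key0 43 (by norm_num) (by norm_num) (by norm_num)
    have a44 := key0 44 (by norm_num) (by norm_num) (by norm_num)
    have a45 := key0 45 (by norm_num) (by norm_num) (by norm_num)
    have a46 := key0 46 (by norm_num) (by norm_num) (by norm_num)
    have a47 := key0 47 (by norm_num) (by norm_num) (by norm_num)
    have a48 := key0 48 (by norm_num) (by norm_num) (by norm_num)
    have b15 := abs_le.mp (hC.2.2.2 15 (by norm_num) (by norm_num [I0]))
    have b16 := abs_le.mp (hC.2.2.2 16 (by norm_num) (by norm_num [I0]))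
    have b17 := abs_le.mp (hC.2.2.2 17 (by norm_num) (by norm_num [I0]))
    have b18 := abs_le.mp (hC.2.2.2 18 (by norm_num) (by norm_num [I0]))
    have b19 := abs_le.mp (hC.2.2.2 19 (by norm_num) (by norm_num [I0]))
    have b20 := abs_le.mp (hC.2.2.2 20 (by norm_num) (by norm_num [I0]))
    have b21 := abs_le.mp (hC.2.2.2 21 (by norm_num) (by norm_num [I0]))
    have b22 := abs_le.mp (hC.2.2.2 22 (by norm_num) (by norm_num [I0]))
    have b23 := abs_le.mp (hC.2.2.2 23 (by norm_num) (by norm_num [I0]))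
    have b26 := abs_le.mp (hC.2.2.2 26 (by norm_num) (by norm_num [I0]))
    have b27 := abs_le.mp (hC.2.2.2 27 (by norm_num) (by norm_num [I0]))
    have b28 := abs_le.mp (hC.2.2.2 28 (by norm_num) (by norm_num [I0]))
    have b29 := abs_le.mp (hC.2.2.2 29 (by norm_num) (by norm_num [I0]))
    have b30 := abs_le.mp (hC.2.2.2 30 (by norm_num) (by norm_num [I0]))
    have b31 := abs_le.mp (hC.2.2.2 31 (by norm_num) (by norm_num [I0]))
    have b32 := abs_le.mp (hC.2.2.2 32 (by norm_num) (by norm_num [I0]))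
    have b33 := abs_le.mp (hC.2.2.2 33 (by norm_num) (by norm_num [I0]))
    have b34 := abs_le.mp (hC.2.2.2 34 (by norm_num) (by norm_num [I0]))
    norm_num [I0] at b15 b16 b17 b18 b19 b20 b21 b22 b23 b26 b27 b28 b29 b30 b31 b32 b33 b34
    ring_nf at a15 a16 a17 a18 a19 a20 a21 a22 a23 a24 a25 a26 a27 a28 a29 a30 a31 a32 a33 a34 a35
    have eL : T 15 + T 16 + T 17 + T 18 + T 19 + T 20 + T 21 + T 22 + T 23 + T 24 + (4 - w 24) * (5 / 28) ≤
        t 15 + t 16 + t 17 + t 18 + t 19 + t 20 + t 21 + t 22 + t 23 + t 24 := by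
      linarith only [d24, a15, a16, a17, a18, a19, a20, a21, a22, a23, a24, b15.1, b16.1, b17.1, b18.1, b19.1, b20.1, b21.1, b22.1, b23.1]
    have eR : T 26 + T 27 + T 28 + T 29 + T 30 + T 31 + T 32 + T 33 + T 34 + T 35 + (4 - w 26) * (5 / 28) ≤
        t 26 + t 27 + t 28 + t 29 + t 30 + t 31 + t 32 + t 33 + t 34 + t 35 := by
      linarith only [d26, a26, a27, a28, a29, a30, a31, a32, a33, a34, a35, b26.2, b27.2, b28.2, b29.2, b30.2, b31.2, b32.2, b33.2, b34.2]
    have eM : T 25 ≤ t 25 + (4 - w 24) * (5 / 28) + (4 - w 26) * (5 / 28) := by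
      linarith only [a25, c25, d25]
    show ∑ i ∈ Ico 2 49, T i ≤ ∑ i ∈ Ico 2 49, t i
    rw [sum_Ico_eq_sum_range, sum_Ico_eq_sum_range]
    simp only [Nat.reduceSub, sum_range_succ, sum_range_zero, Nat.reduceAdd]
    linarith only [eL, eR, eM, a2, a3, a4, a5, a6, a7, a8, a9, a10, a11, a12, a13, a14, a36, a37, a38, a39, a40, a41, a42, a43, a44, a45, a46, a47, a48]

end Pool.Agent.Results.MP_6d6828_an.Counterexample
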